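import Pool.Agent.W2helper9.OP.Stm2

/-!
# Project OP, piece CASE2: the image point is periodic
-/

set_option autoImplicit false

open MvPolynomial IsDedekindDomain NumberField

namespace Pool.Agent.W2helper12.OP

open Pool.Agent.W2helper9.OP
open Pool.Agent.Helper819.Dyn (Tuple IsEnd)

section

variable {E : Type} [Field E] {N : ℕ}

/-- the points of the line through the centre of the projection and `g` -/
def iota (g : Fin (N + 1) → E) (y : Fin 2 → E) : Fin (N + 2) → E :=
  Fin.snoc (α := fun _ => E) (fun i => y 0 * g i) (y 1)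

@[simp] lemma iota_last (g : Fin (N + 1) → E) (y : Fin 2 → E) :
    iota g y (Fin.last (N + 1)) = y 1 := Fin.snoc_last _ _

@[simp] lemma iota_castSucc (g : Fin (N + 1) → E) (y : Fin 2 → E) (i : Fin (N + 1)) :
    iota g y i.castSucc = y 0 * g i := Fin.snoc_castSucc _ _ _

omit [Field E] in
lemma ext_last {x y : Fin (N + 2) → E} (h : ∀ i : Fin (N + 1), x i.castSucc = y i.castSucc)
    (h' : x (Fin.last (N + 1)) = y (Fin.last (N + 1))) : x = y := by
  funext i
  refine Fin.lastCases h' h i

lemma iota_smul (g : Fin (N + 1) → E) (y : Fin 2 → E) (a : E) :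
    iota g (a • y) = a • iota g y := by
  refine ext_last (fun i => ?_) ?_
  · simp [mul_assoc]
  · simp

lemma iota_peq {g : Fin (N + 1) → E} {y z : Fin 2 → E} (h : PEq y z) :
    PEq (iota g y) (iota g z) := by
  obtain ⟨c, hc, rfl⟩ := h
  exact ⟨c, hc, iota_smul g y c⟩

lemma iota_cong {Γ : Type} [LinearOrderedCommGroupWithZero Γ] {ν : Valuation E Γ}
    {g : Fin (N + 1) → E} (hg : ∀ i, ν (g i) ≤ 1) {i₀ : Fin (N + 1)} (hi₀ : ν (g i₀) = 1)
    {y z : Fin 2 → E} (h : Cong ν (iota g y) (iota g z)) : Cong ν y z := by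
  obtain ⟨a, b, h1, ⟨i, hi⟩, h3⟩ := h
  have e0 : ν (a * y 0) ≤ 1 := by
    have := h1 i₀.castSucc
    rw [iota_castSucc, ← mul_assoc, map_mul, hi₀, mul_one] at this
    exact this
  have e1 : ν (a * y 1) ≤ 1 := by
    have := h1 (Fin.last _)
    rwa [iota_last] at this
  refine ⟨a, b, fun j => ?_, ?_, fun j => ?_⟩
  · fin_cases j
    · exact e0
    · exact e1
  · induction i using Fin.lastCases with
    | last => exact ⟨1, by rwa [iota_last] at hi⟩
    | cast i =>
      refine ⟨0, le_antisymm e0 ?_⟩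
      rw [iota_castSucc, ← mul_assoc, map_mul] at hi
      rw [← hi]
      exact mul_le_of_le_one_right' (hg i)
  · fin_cases j
    · have := h3 i₀.castSucc
      rw [iota_castSucc, iota_castSucc, ← mul_assoc, ← mul_assoc, ← sub_mul, map_mul, hi₀,
        mul_one] at this
      exact this
    · have := h3 (Fin.last _)
      rw [iota_last, iota_last] at this
      exact this

end

section

variable {K E : Type} [Field K] [Field E] [Algebra K E] {N : ℕ}

/-- restriction of a form to the line -/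
noncomputable def Hp (g : Fin (N + 1) → K) (p : MvPolynomial (Fin (N + 2)) K) :
    MvPolynomial (Fin 2) K :=
  bind₁ (Fin.snoc (α := fun _ => MvPolynomial (Fin 2) K) (fun i => C (g i) * X 0) (X 1)) p

lemma aeval_Hp (g : Fin (N + 1) → K) (p : MvPolynomial (Fin (N + 2)) K) (y : Fin 2 → E) :
    aeval y (Hp g p) = aeval (iota (fun i => algebraMap K E (g i)) y) p := by
  rw [Hp, aeval_bind₁]
  congr 2
  refine ext_last (fun i => ?_) ?_
  · rw [Fin.snoc_castSucc, iota_castSucc, map_mul, aeval_C, aeval_X, mul_comm]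
  · rw [Fin.snoc_last, iota_last, aeval_X]

lemma Hp_homog (g : Fin (N + 1) → K) {p : MvPolynomial (Fin (N + 2)) K} {D : ℕ}
    (hp : p.IsHomogeneous D) : (Hp g p).IsHomogeneous D := by
  have h := hp.aeval (S := K)
    (Fin.snoc (α := fun _ => MvPolynomial (Fin 2) K) (fun i => C (g i) * X 0) (X 1)) (n := 1)
    (fun i => by
      refine Fin.lastCases ?_ (fun i => ?_) i
      · rw [Fin.snoc_last]; exact isHomogeneous_X _ _
      · rw [Fin.snoc_castSucc]; exact isHomogeneous_C_mul_X _ _)
  rw [one_mul] at h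
  exact h

/-- the binary map -/
noncomputable def Gt (g : Fin (N + 1) → K) (c : K) (D : ℕ) (p : MvPolynomial (Fin (N + 2)) K) :
    Tuple K 1 := ![C c * X 0 ^ D, Hp g p]

lemma mp_Gt0 (g : Fin (N + 1) → K) (c : K) (D : ℕ) (p : MvPolynomial (Fin (N + 2)) K)
    (y : Fin 2 → E) : mp (Gt g c D p) y 0 = algebraMap K E c * y 0 ^ D := by
  change aeval y (C c * X 0 ^ D : MvPolynomial (Fin 2) K) = _
  rw [map_mul, aeval_C, map_pow, aeval_X]

lemma mp_Gt1 (g : Fin (N + 1) → K) (c : K) (D : ℕ) (p : MvPolynomial (Fin (N + 2)) K)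
    (y : Fin 2 → E) : mp (Gt g c D p) y 1 =
      aeval (iota (fun i => algebraMap K E (g i)) y) p := by
  change aeval y (Hp g p) = _
  rw [aeval_Hp]

/-- the projection commutes with the iterates -/
lemma below_iter {F : Tuple K (N + 1)} {F' : Tuple K N}
    (h : ∀ x : Fin (N + 2) → E, (fun i : Fin (N + 1) => mp F x i.castSucc) =
      mp F' (fun i => x i.castSucc)) (x : Fin (N + 2) → E) (r : ℕ) :
    (fun i : Fin (N + 1) => (mp F)^[r] x i.castSucc) = (mp F')^[r] (fun i => x i.castSucc) := by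
  induction r with
  | zero => rfl
  | succ r ih =>
    rw [Function.iterate_succ_apply' (mp F'), ← ih, ← h]
    funext i
    rw [Function.iterate_succ_apply' (mp F)]

/-- the action of the `r`-th iterate on the line -/
lemma line_map {F : Tuple K (N + 1)} {F' : Tuple K N} {d r : ℕ} (hF : ∀ i, (F i).IsHomogeneous d)
    (h : ∀ x : Fin (N + 2) → E, (fun i : Fin (N + 1) => mp F x i.castSucc) =
      mp F' (fun i => x i.castSucc)) {G : Tuple K (N + 1)}
    (hG : ∀ x : Fin (N + 2) → E, mp G x = (mp F)^[r] x) (g : Fin (N + 1) → K) (c : K)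
    (hc : (mp F')^[r] (fun i => algebraMap K E (g i)) = algebraMap K E c •
      fun i => algebraMap K E (g i)) (y : Fin 2 → E) :
    (mp F)^[r] (iota (fun i => algebraMap K E (g i)) y) =
      iota (fun i => algebraMap K E (g i)) (mp (Gt g c (d ^ r) (G (Fin.last _))) y) := by
  refine ext_last (fun i => ?_) ?_
  · rw [iota_castSucc, mp_Gt0]
    have h1 := congrFun (below_iter h (iota (fun i => algebraMap K E (g i)) y) r) i
    rw [show (mp F)^[r] (iota (fun i => algebraMap K E (g i)) y) i.castSucc = _ from h1]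
    have h2 : (fun i : Fin (N + 1) => iota (fun i => algebraMap K E (g i)) y i.castSucc) =
        fun i => (y 0 • iota (fun i => algebraMap K E (g i)) ![1, 0]) i.castSucc := by
      funext i
      simp
    rw [h2, ← below_iter h, iter_smul hF]
    have h3 := congrFun (below_iter h (iota (fun i => algebraMap K E (g i)) ![1, 0]) r) i
    simp only [iota_castSucc, Matrix.cons_val_zero, one_mul] at h3
    change y 0 ^ d ^ r * (mp F)^[r] (iota (fun i => algebraMap K E (g i)) ![1, 0]) i.castSucc = _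
    rw [h3, hc]
    simp only [Pi.smul_apply, smul_eq_mul]
    ring
  · rw [iota_last, mp_Gt1, ← hG]
    rfl

lemma line_iter {F : Tuple K (N + 1)} {r : ℕ} {g : Fin (N + 1) → E} {G : Tuple K 1}
    (h : ∀ y : Fin 2 → E, (mp F)^[r] (iota g y) = iota g (mp G y)) (y : Fin 2 → E) (n : ℕ) :
    (mp F)^[r * n] (iota g y) = iota g ((mp G)^[n] y) := by
  induction n with
  | zero => rfl
  | succ n ih =>
    rw [Nat.mul_succ, Nat.add_comm (r * n) r, Function.iterate_add_apply, ih, h,
      Function.iterate_succ_apply']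

end

lemma fin_val {K : Type} [Field K] [NumberField K] {x : K} (hx : x ≠ 0) :
    {v : HeightOneSpectrum (𝓞 K) | v.valuation K x ≠ 1}.Finite := by
  refine ((HeightOneSpectrum.Support.finite (R := 𝓞 K) x).union
    (HeightOneSpectrum.Support.finite (R := 𝓞 K) x⁻¹)).subset fun v hv => ?_
  rcases lt_or_gt_of_ne hv with h | h
  · right
    change 1 < v.valuation K x⁻¹
    rw [map_inv₀]
    refine (one_lt_inv₀ ?_).2 h
    rw [Valuation.pos_iff]
    exact hx
  · left
    exact h

theorem p_case2 : P_CASE2 := by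
  intro hN1 hITER hCMAP hCOMP hEXT0 hGFIN hGR K _ _ N d F F' hd hF hB γ hγ' hper hnp T hT
  obtain ⟨r, hr, c', hc', hcr⟩ := hper
  set g : Fin (N + 1) → K := fun i => γ i.castSucc with hg
  set c : K := c'⁻¹ with hc
  have hc0 : c ≠ 0 := inv_ne_zero hc'
  have hcr' : (mp F')^[r] g = c • g := by
    conv_rhs => rw [hcr]
    rw [smul_smul, hc, inv_mul_cancel₀ hc', one_smul]
  obtain ⟨G₀, hG₀h, hG₀K, hG₀A⟩ := hITER K (N + 1) d F hF.1 r
  set G := Gt g c (d ^ r) (G₀ (Fin.last _)) with hG
  have hlK : ∀ y : Fin 2 → K, (mp F)^[r] (iota g y) = iota g (mp G y) := fun y => by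
    have := line_map (E := K) hF.1 hB.1 hG₀K g c (by simpa using hcr') y
    simpa using this
  have hlA : ∀ y : Fin 2 → AlgebraicClosure K, (mp F)^[r] (iota (emb g) y) =
      iota (emb g) (mp G y) := fun y => by
    refine line_map (E := AlgebraicClosure K) hF.1 hB.2 hG₀A g c ?_ y
    have h1 := iter_emb F' g r
    rw [hcr'] at h1
    refine h1.trans ?_
    funext i
    simp [emb]
  have hD : 2 ≤ d ^ r := hd.trans (Nat.le_self_pow hr.ne' d)
  have hGE : IsEnd (d ^ r) G := by
    refine ⟨fun i => ?_, fun x hx => ?_⟩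
    · fin_cases i
      · exact isHomogeneous_C_mul_X_pow _ _ _
      · exact Hp_homog g (hG₀h _)
    · have h0 : mp G x = 0 := funext hx
      have h1 := hlA x
      have h2 : iota (emb g) (0 : Fin 2 → AlgebraicClosure K) = 0 := by
        refine ext_last (fun i => ?_) ?_ <;> simp
      rw [h0, h2] at h1
      have h3 : iota (emb g) x = 0 := by
        by_contra hne
        exact iter_ne_zero hF hne r h1
      obtain ⟨j, hj⟩ := Function.ne_iff.1 (emb_ne_zero hγ')
      funext i
      fin_cases i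
      · have h4 := congrFun h3 j.castSucc
        rw [iota_castSucc] at h4
        exact (mul_eq_zero.1 h4).resolve_right hj
      · have h4 := congrFun h3 (Fin.last _)
        rw [iota_last] at h4
        exact h4
  set y₀ : Fin 2 → K := ![1, γ (Fin.last _)] with hy₀
  have hγ : iota g y₀ = γ := by
    refine ext_last (fun i => ?_) ?_ <;> simp [hy₀, hg]
  have hy0 : y₀ ≠ 0 := fun h => by
    have := congrFun h 0
    simp [hy₀] at this
  have hnp' : ¬ Per G y₀ := by
    rintro ⟨n, hn, h⟩
    refine hnp ⟨r * n, Nat.mul_pos hr hn, ?_⟩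
    have h1 := iota_peq (g := g) h
    rw [← line_iter hlK, hγ] at h1
    exact h1
  obtain ⟨i₀, hi₀⟩ := Function.ne_iff.1 hγ'
  have hfin : {v : HeightOneSpectrum (𝓞 K) | ∃ i, g i ≠ 0 ∧ v.valuation K (g i) ≠ 1}.Finite := by
    refine (Set.finite_iUnion (f := fun i : Fin (N + 1) =>
      {v : HeightOneSpectrum (𝓞 K) | g i ≠ 0 ∧ v.valuation K (g i) ≠ 1}) fun i => ?_).subset ?_
    · by_cases h : g i = 0
      · refine Set.finite_empty.subset ?_
        rintro v ⟨hv, -⟩
        exact hv h
      · exact (fin_val h).subset fun v hv => hv.2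
    · rintro v ⟨i, hi⟩
      exact Set.mem_iUnion.2 ⟨i, hi⟩
  obtain ⟨v, hvT, hv⟩ := hN1 K (d ^ r) G hD hGE y₀ hy0 hnp' _
    ((hT.union (hGFIN K (N + 1) d F hF)).union hfin)
  have hv1 : v ∉ T := fun h => hvT (Or.inl (Or.inl h))
  have hv2 : GoodRed d F v := by
    by_contra h
    exact hvT (Or.inl (Or.inr h))
  have hv3 : ∀ i, g i ≠ 0 → v.valuation K (g i) = 1 := by
    intro i hi
    by_contra h
    exact hvT (Or.inr ⟨i, hi, h⟩)
  refine ⟨v, hv1, fun k hk hcong => hv k hk ?_⟩
  obtain ⟨A, hA⟩ := hEXT0 K v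
  have hGA := hGR K (N + 1) d F v hv2 A hA
  rw [← hCOMP K (N + 1) v A hA, ← iter_emb] at hcong
  have h1 := cong_mul hCMAP hF.1 hGA hcong r
  rw [iter_emb, hCOMP K (N + 1) v A hA, Nat.mul_comm, ← hγ, line_iter hlK] at h1
  refine iota_cong (fun i => ?_) (hv3 i₀ hi₀) h1
  by_cases hi : g i = 0
  · rw [hi, map_zero]; exact zero_le_one
  · exact (hv3 i hi).le

end Pool.Agent.W2helper12.OP
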