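import Pool.Agent.W2helper9.OP.Stm

/-!
# Project OP, pieces EXT and EXT0: extension of the valuation rings to the algebraic closure
-/

set_option autoImplicit false

open IsDedekindDomain NumberField

namespace Pool.Agent.W2helper12.OP

open Pool.Agent.W2helper9.OP

/-- Every valuation ring extends to a larger field. -/
lemma ext_gen {F E Γ : Type*} [Field F] [Field E] [LinearOrderedCommGroupWithZero Γ]
    (ν : Valuation F Γ) (f : F →+* E) :
    ∃ A : ValuationSubring E, ∀ z : F, f z ∈ A ↔ ν z ≤ 1 := by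
  obtain ⟨B, hB⟩ :=
    LocalSubring.exists_le_valuationSubring (ν.valuationSubring.toLocalSubring.map f)
  obtain ⟨hle, hloc⟩ := LocalSubring.le_def.1 hB
  have hin : ∀ z : F, ν z ≤ 1 → f z ∈ (ν.valuationSubring.toLocalSubring.map f).toSubring :=
    fun z hz => ⟨z, (Valuation.mem_valuationSubring_iff ν z).2 hz, rfl⟩
  refine ⟨B, fun z => ⟨fun hz => ?_, fun hz => hle (hin z hz)⟩⟩
  by_contra hlt
  rw [not_le] at hlt
  have hz0 : z ≠ 0 := by
    rintro rfl
    simp at hlt
  have hi : ν z⁻¹ ≤ 1 := by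
    rw [map_inv₀]
    exact (inv_lt_one₀ (zero_lt_one.trans hlt)).2 hlt |>.le
  have hfz : f z ≠ 0 := by
    rw [Ne, map_eq_zero]; exact hz0
  have hu : IsUnit (Subring.inclusion hle ⟨f z⁻¹, hin _ hi⟩) := by
    refine IsUnit.of_mul_eq_one ⟨f z, hz⟩ ?_
    apply Subtype.ext
    change f z⁻¹ * f z = 1
    rw [map_inv₀, inv_mul_cancel₀ hfz]
  have hu' := hloc.map_nonunit _ hu
  obtain ⟨u, hu'⟩ := hu'
  obtain ⟨⟨y, hy⟩, hy1⟩ : ∃ y, (⟨f z⁻¹, hin _ hi⟩ :
      (ν.valuationSubring.toLocalSubring.map f).toSubring) * y = 1 := ⟨↑u⁻¹, by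
    rw [← hu']; exact u.mul_inv⟩
  obtain ⟨y', hy', rfl⟩ := hy
  have h1 : f z⁻¹ * f y' = 1 := congrArg Subtype.val hy1
  rw [map_inv₀, inv_mul_eq_one₀ hfz] at h1
  have h2 : z = y' := f.injective h1
  subst h2
  exact absurd ((Valuation.mem_valuationSubring_iff ν z).1 hy') (not_le.2 hlt)

/-- Comparison of the valuations of a prime ideal and of a prime ideal over it. -/
lemma val_over {K L : Type} [Field K] [NumberField K] [Field L] [NumberField L] [Algebra K L]
    (v : HeightOneSpectrum (𝓞 K)) (w : HeightOneSpectrum (𝓞 L))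
    (h : w.asIdeal.comap (algebraMap (𝓞 K) (𝓞 L)) = v.asIdeal) (x : K) :
    w.valuation L (algebraMap K L x) ≤ 1 ↔ v.valuation K x ≤ 1 := by
  have hmap : ∀ a : 𝓞 K, algebraMap K L (algebraMap (𝓞 K) K a) =
      algebraMap (𝓞 L) L (algebraMap (𝓞 K) (𝓞 L) a) := fun a => by
    rw [← IsScalarTower.algebraMap_apply, ← IsScalarTower.algebraMap_apply]
  have hd : ∀ d : 𝓞 K, d ∉ v.asIdeal →
      w.valuation L (algebraMap K L (algebraMap (𝓞 K) K d)) = 1 := fun d hd => by
    rw [hmap, HeightOneSpectrum.valuation_eq_one_iff_notMem]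
    intro hw
    exact hd (h ▸ hw)
  have key : ∀ x : K, v.valuation K x ≤ 1 → ∃ (n d : 𝓞 K), d ∉ v.asIdeal ∧
      x * algebraMap (𝓞 K) K d = algebraMap (𝓞 K) K n ∧
      w.valuation L (algebraMap K L x) = w.valuation L (algebraMap (𝓞 L) L
        (algebraMap (𝓞 K) (𝓞 L) n)) := fun x hx => by
    obtain ⟨n, d, hnd⟩ := v.exists_primeCompl_mul_eq_of_integer x hx
    refine ⟨n, d, d.2, hnd, ?_⟩
    rw [← hmap, ← hnd, map_mul, map_mul, hd _ d.2, mul_one]
  constructor
  · intro hw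
    by_contra hlt
    rw [not_le] at hlt
    have hx0 : x ≠ 0 := by
      rintro rfl
      simp at hlt
    have hi : v.valuation K x⁻¹ < 1 := by
      rw [map_inv₀]
      exact (inv_lt_one₀ (zero_lt_one.trans hlt)).2 hlt
    obtain ⟨n, d, hdv, hnd, hval⟩ := key x⁻¹ hi.le
    have hn : v.valuation K (algebraMap (𝓞 K) K n) < 1 := by
      rw [← hnd, map_mul, (HeightOneSpectrum.valuation_eq_one_iff_notMem v).2 hdv, mul_one]
      exact hi
    have hnv : n ∈ v.asIdeal := (v.valuation_lt_one_iff_mem n).1 hn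
    have hnw : algebraMap (𝓞 K) (𝓞 L) n ∈ w.asIdeal := by
      rw [← h] at hnv
      exact hnv
    have h1 : w.valuation L (algebraMap K L x⁻¹) < 1 := by
      rw [hval]
      exact (w.valuation_lt_one_iff_mem _).2 hnw
    rw [map_inv₀, map_inv₀] at h1
    have h2 : 0 < w.valuation L (algebraMap K L x) := by
      rw [Valuation.pos_iff, Ne, map_eq_zero]
      exact hx0
    exact absurd ((inv_lt_one₀ h2).1 h1) (not_lt.2 hw)
  · intro hv
    obtain ⟨n, d, -, -, hval⟩ := key x hv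
    rw [hval]
    exact w.valuation_le_one _

theorem p_ext0 : P_EXT0 := by
  intro K _ _ v
  exact ext_gen (v.valuation K) (algebraMap K (AlgebraicClosure K))

theorem p_ext : P_EXT := by
  intro K _ _ L _ v w h
  obtain ⟨A, hA⟩ := ext_gen (w.valuation L) (algebraMap L (AlgebraicClosure K))
  refine ⟨A, fun x => ?_, fun z => hA z⟩
  rw [← val_over v w h x, ← hA]
  rfl

end Pool.Agent.W2helper12.OP
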